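import Pool.Agent.X194.TF.Words

/-!
# The extra homeomorphism
-/

namespace Pool.Agent.X194.TF

/-- a map from the letters of rank four to the generators of rank three -/
def tau (l : Lt 4) : Fin 3 := if h : l.1.val < 3 then ⟨l.1.val, h⟩ else 0

/-- the inclusion of the first three generators -/
def emb (i : Fin 3) : Fin 4 := i.castSucc

/-- a generator different from the given one -/
def zz (i : Fin 3) : Fin 3 := i + 1

theorem zz_ne (i : Fin 3) : zz i ≠ i := by revert i; decide

theorem tau_emb (i : Fin 3) (b : Bool) : tau (emb i, b) = i := by revert i b; decide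

theorem emb_ne (i : Fin 3) : emb i ≠ 3 := by revert i; decide

theorem emb_tau {l : Lt 4} (h : l.1 ≠ 3) : emb (tau l) = l.1 := by revert l; decide

/-- the word `ω` with a marked letter `u` or `u⁻¹` in front, without cancellation -/
def xu (w : B 4) : B 4 := act (3, decide (w 0 ≠ (3, false))) w

theorem xu_ok (w : B 4) : w 0 ≠ inv (3, decide (w 0 ≠ (3, false))) := by
  by_cases h : w 0 = (3, false)
  · rw [h]; decide
  · simp [inv, h]

theorem xu_zero (w : B 4) : xu w 0 = (3, decide (w 0 ≠ (3, false))) := act_zero (xu_ok w)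

theorem xu_succ (w : B 4) (k : ℕ) : xu w (k + 1) = w k := act_succ (xu_ok w) k

theorem continuous_xu : Continuous xu :=
  cont_code (c := fun w : B 4 => w 0) (continuous_letter 0)
    (G := fun d w => act (3, decide (d ≠ (3, false))) w) (fun _ => continuous_act _)

/-- the inner part of the encoding -/
def enc0 (i : Fin 3) (y : B 3) : B 3 := act (zz i, decide (y 0 ≠ (zz i, false))) y

theorem enc0_ok (i : Fin 3) (y : B 3) : y 0 ≠ inv (zz i, decide (y 0 ≠ (zz i, false))) := by
  by_cases h : y 0 = (zz i, false)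
  · rw [h]; simp [inv]
  · simp [inv, h]

theorem enc0_zero (i : Fin 3) (y : B 3) :
    enc0 i y 0 = (zz i, decide (y 0 ≠ (zz i, false))) := act_zero (enc0_ok i y)

theorem enc0_succ (i : Fin 3) (y : B 3) (k : ℕ) : enc0 i y (k + 1) = y k :=
  act_succ (enc0_ok i y) k

/-- the encoding of the generators `f`, `i` in front of `y` -/
def enc (f i : Fin 3) (y : B 3) : B 3 := act (f, true) (act (i, true) (enc0 i y))

theorem enc1_ok (i : Fin 3) (y : B 3) : enc0 i y 0 ≠ inv (i, true) := by
  rw [enc0_zero]
  intro h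
  exact zz_ne i (congrArg Prod.fst h)

theorem enc_ok (f i : Fin 3) (y : B 3) : act (i, true) (enc0 i y) 0 ≠ inv (f, true) := by
  rw [act_zero (enc1_ok i y)]
  intro h
  have := congrArg Prod.snd h
  simp [inv] at this

theorem enc_zero (f i : Fin 3) (y : B 3) : enc f i y 0 = (f, true) := act_zero (enc_ok f i y)

theorem enc_one (f i : Fin 3) (y : B 3) : enc f i y 1 = (i, true) := by
  have h := act_succ (enc_ok f i y) 0
  rw [act_zero (enc1_ok i y)] at h
  exact h

theorem enc_two (f i : Fin 3) (y : B 3) :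
    enc f i y 2 = (zz i, decide (y 0 ≠ (zz i, false))) := by
  have h := act_succ (enc_ok f i y) 1
  rw [act_succ (enc1_ok i y) 0, enc0_zero] at h
  exact h

theorem enc_add (f i : Fin 3) (y : B 3) (k : ℕ) : enc f i y (k + 3) = y k := by
  have h := act_succ (enc_ok f i y) (k + 2)
  rw [act_succ (enc1_ok i y) (k + 1), enc0_succ] at h
  exact h

theorem continuous_enc (f i : Fin 3) : Continuous (enc f i) := by
  refine (continuous_act _).comp ((continuous_act _).comp ?_)
  exact cont_code (c := fun y : B 3 => y 0) (continuous_letter 0)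
    (G := fun d y => act (zz i, decide (d ≠ (zz i, false))) y) (fun _ => continuous_act _)

/-- the space -/
abbrev X := B 4 × B 3

/-- the condition of being a code word -/
def strip (w0 : Lt 4) (z0 z1 z2 z3 : Lt 3) : Prop :=
  z0 = (tau w0, true) ∧ z1.2 = true ∧ z2 = (zz z1.1, decide (z3 ≠ (zz z1.1, false))) ∧
    z3 ≠ (z1.1, true)

instance (w0 : Lt 4) (z0 z1 z2 z3 : Lt 3) : Decidable (strip w0 z0 z1 z2 z3) :=
  inferInstanceAs (Decidable (_ ∧ _ ∧ _ ∧ _))

/-- the condition of being a decoded word -/
def jj (b : Bool) (w0 w1 w2 : Lt 4) (z0 : Lt 3) : Prop :=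
  w0.1 ≠ 3 ∧ w0.2 = b ∧ w1 = (3, decide (w2 ≠ (3, false))) ∧ z0 ≠ (tau w0, true)

instance (b : Bool) (w0 w1 w2 : Lt 4) (z0 : Lt 3) : Decidable (jj b w0 w1 w2 z0) :=
  inferInstanceAs (Decidable (_ ∧ _ ∧ _ ∧ _))

/-- the decoding of a code word -/
def dec (b : Bool) (i : Fin 3) (p : X) : X :=
  (act (emb i, b) (xu p.1), tail (tail (tail p.2)))

/-- the involution exchanging code words and decoded words -/
def kap (b : Bool) (p : X) : X :=
  if strip (p.1 0) (p.2 0) (p.2 1) (p.2 2) (p.2 3) then dec b (p.2 1).1 p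
  else if jj b (p.1 0) (p.1 1) (p.1 2) (p.2 0) then
    (tail (tail p.1), enc (tau (p.1 2)) (tau (p.1 0)) p.2)
  else p

theorem dec_ok (b : Bool) (i : Fin 3) (w : B 4) : xu w 0 ≠ inv (emb i, b) := by
  rw [xu_zero]
  intro h
  exact emb_ne i (congrArg Prod.fst h).symm

theorem dec_zero (b : Bool) (i : Fin 3) (p : X) : (dec b i p).1 0 = (emb i, b) :=
  act_zero (dec_ok b i p.1)

theorem dec_one (b : Bool) (i : Fin 3) (p : X) :
    (dec b i p).1 1 = (3, decide (p.1 0 ≠ (3, false))) := by
  have := act_succ (dec_ok b i p.1) 0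
  rw [xu_zero] at this
  exact this

theorem dec_add (b : Bool) (i : Fin 3) (p : X) (k : ℕ) : (dec b i p).1 (k + 2) = p.1 k := by
  have := act_succ (dec_ok b i p.1) (k + 1)
  rw [xu_succ] at this
  exact this

theorem dec_snd (b : Bool) (i : Fin 3) (p : X) (k : ℕ) : (dec b i p).2 k = p.2 (k + 3) := rfl

theorem kap_kap (b : Bool) (p : X) : kap b (kap b p) = p := by
  by_cases h : strip (p.1 0) (p.2 0) (p.2 1) (p.2 2) (p.2 3)
  · have h1 : kap b p = dec b (p.2 1).1 p := by simp only [kap, h, if_true]
    rw [h1]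
    set i := (p.2 1).1 with hi
    obtain ⟨ha, hb, hc, hd⟩ := h
    have hns : ¬ strip ((dec b i p).1 0) ((dec b i p).2 0) ((dec b i p).2 1)
        ((dec b i p).2 2) ((dec b i p).2 3) := by
      rintro ⟨h2, -⟩
      rw [dec_zero, tau_emb, dec_snd] at h2
      exact hd h2
    have hj : jj b ((dec b i p).1 0) ((dec b i p).1 1) ((dec b i p).1 2)
        ((dec b i p).2 0) := by
      refine ⟨?_, ?_, ?_, ?_⟩
      · rw [dec_zero]; exact emb_ne i
      · rw [dec_zero]
      · rw [dec_one, dec_add b i p 0]
      · rw [dec_zero, tau_emb, dec_snd]; exact hd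
    have h2 : kap b (dec b i p) = (tail (tail (dec b i p).1),
        enc (tau ((dec b i p).1 2)) (tau ((dec b i p).1 0)) (dec b i p).2) := by
      rw [kap, if_neg hns, if_pos hj]
    rw [h2]
    refine Prod.ext ?_ ?_
    · apply B.ext'
      intro k
      exact dec_add b i p k
    · apply B.ext'
      rw [dec_add b i p 0, dec_zero, tau_emb]
      rintro (_ | _ | _ | k)
      · rw [enc_zero, ha]
      · change enc _ _ _ 1 = p.2 1
        rw [enc_one, hi, ← hb]
      · change enc _ _ _ 2 = p.2 2
        rw [enc_two, dec_snd, hc]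
      · rw [enc_add, dec_snd]
  · by_cases h' : jj b (p.1 0) (p.1 1) (p.1 2) (p.2 0)
    · have h1 : kap b p = (tail (tail p.1), enc (tau (p.1 2)) (tau (p.1 0)) p.2) := by
        rw [kap, if_neg h, if_pos h']
      rw [h1]
      obtain ⟨ha, hb, hc, hd⟩ := h'
      set q : X := (tail (tail p.1), enc (tau (p.1 2)) (tau (p.1 0)) p.2) with hq
      have q0 : q.1 0 = p.1 2 := rfl
      have q1 : q.2 0 = (tau (p.1 2), true) := enc_zero _ _ _
      have q2 : q.2 1 = (tau (p.1 0), true) := enc_one _ _ _
      have q3 : q.2 2 = (zz (tau (p.1 0)), decide (p.2 0 ≠ (zz (tau (p.1 0)), false))) :=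
        enc_two _ _ _
      have q4 : ∀ k, q.2 (k + 3) = p.2 k := enc_add _ _ _
      have hs : strip (q.1 0) (q.2 0) (q.2 1) (q.2 2) (q.2 3) := by
        refine ⟨?_, ?_, ?_, ?_⟩
        · rw [q0, q1]
        · rw [q2]
        · rw [q2, q3, q4 0]
        · rw [q2, q4 0]; exact hd
      rw [kap, if_pos hs, q2]
      refine Prod.ext ?_ ?_
      · apply B.ext'
        rintro (_ | _ | k)
        · rw [dec_zero]
          exact Prod.ext (emb_tau ha) hb.symm
        · change (dec b _ q).1 1 = p.1 1
          rw [dec_one, q0, hc]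
        · rw [dec_add]; rfl
      · apply B.ext'
        intro k
        rw [dec_snd, q4]
    · have h1 : kap b p = p := by rw [kap, if_neg h, if_neg h']
      rw [h1, h1]

theorem continuous_dec (b : Bool) (i : Fin 3) : Continuous (dec b i) := by
  refine Continuous.prodMk ?_ ?_
  · exact (continuous_act _).comp (continuous_xu.comp continuous_fst)
  · exact continuous_tail.comp (continuous_tail.comp (continuous_tail.comp continuous_snd))

theorem continuous_kap (b : Bool) : Continuous (kap b) := by
  have h1 : ∀ k, Continuous fun p : X => p.1 k := fun k =>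
    (continuous_letter k).comp continuous_fst
  have h2 : ∀ k, Continuous fun p : X => p.2 k := fun k =>
    (continuous_letter k).comp continuous_snd
  refine cont_code (c := fun p : X => ((p.1 0, p.1 1, p.1 2), (p.2 0, p.2 1, p.2 2, p.2 3)))
    (((h1 0).prodMk ((h1 1).prodMk (h1 2))).prodMk
      ((h2 0).prodMk ((h2 1).prodMk ((h2 2).prodMk (h2 3)))))
    (G := fun d p => if strip d.1.1 d.2.1 d.2.2.1 d.2.2.2.1 d.2.2.2.2 then dec b d.2.2.1.1 p
      else if jj b d.1.1 d.1.2.1 d.1.2.2 d.2.1 then
        (tail (tail p.1), enc (tau d.1.2.2) (tau d.1.1) p.2)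
      else p) ?_
  intro d
  split_ifs
  · exact continuous_dec b _
  · exact (continuous_tail.comp (continuous_tail.comp continuous_fst)).prodMk
      ((continuous_enc _ _).comp continuous_snd)
  · exact continuous_id

/-- the shift of exponents -/
def hh (b : Bool) (w : B 4) : B 4 :=
  if (w 0).1 = 3 then w
  else if (w 0).2 = b then act (w 0) w
  else if w 1 = w 0 then act (inv (w 0)) w
  else act (inv (w 0)) (act (inv (w 0)) w)

theorem continuous_hh (b : Bool) : Continuous (hh b) := by
  refine cont_code (c := fun w : B 4 => (w 0, w 1))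
    ((continuous_letter 0).prodMk (continuous_letter 1))
    (G := fun d w => if d.1.1 = 3 then w
      else if d.1.2 = b then act d.1 w
      else if d.2 = d.1 then act (inv d.1) w
      else act (inv d.1) (act (inv d.1) w)) ?_
  intro d
  split_ifs
  · exact continuous_id
  · exact continuous_act _
  · exact continuous_act _
  · exact (continuous_act _).comp (continuous_act _)

theorem hh_hh (b : Bool) (w : B 4) : hh (!b) (hh b w) = w := by
  by_cases h3 : (w 0).1 = 3
  · have h : hh b w = w := by rw [hh, if_pos h3]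
    rw [h, hh, if_pos h3]
  · by_cases hb : (w 0).2 = b
    · have h : hh b w = act (w 0) w := by rw [hh, if_neg h3, if_pos hb]
      have h0 : w 0 ≠ inv (w 0) := ne_inv _
      have e0 : act (w 0) w 0 = w 0 := act_zero h0
      have e1 : act (w 0) w 1 = w 0 := act_succ h0 0
      rw [h, hh, e0, if_neg h3, if_neg (by rw [hb]; simp), e1, if_pos rfl, act_inv_act]
    · have hb' : (w 0).2 = !b := by
        cases h : (w 0).2 <;> cases b <;> simp_all
      have et : act (inv (w 0)) w = tail w := act_of_eq (inv_inv _).symm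
      by_cases h1 : w 1 = w 0
      · have h : hh b w = act (inv (w 0)) w := by
          rw [hh, if_neg h3, if_neg hb, if_pos h1]
        have e0 : act (inv (w 0)) w 0 = w 0 := by rw [et, tail_apply, h1]
        rw [h, hh, e0, if_neg h3, if_pos hb', act_act_inv]
      · have h : hh b w = act (inv (w 0)) (act (inv (w 0)) w) := by
          rw [hh, if_neg h3, if_neg hb, if_neg h1]
        have h0 : act (inv (w 0)) w 0 ≠ inv (inv (w 0)) := by
          rw [et, tail_apply, inv_inv]; exact h1
        have e0 : act (inv (w 0)) (act (inv (w 0)) w) 0 = inv (w 0) := act_zero h0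
        have e1 : act (inv (w 0)) (act (inv (w 0)) w) 1 = w 1 := by
          rw [act_succ h0 0, et]; rfl
        have c1 : ¬ ((inv (w 0)).1 = 3) := h3
        have c2 : ¬ ((inv (w 0)).2 = !b) := by
          simp only [inv, hb']
          cases b <;> simp
        have c3 : ¬ (w 1 = inv (w 0)) := w.2 0
        rw [h, hh, e0, if_neg c1, if_neg c2, e1, if_neg c3, inv_inv, act_act_inv,
          act_act_inv]

/-- the exponent shift on the product -/
def hp (b : Bool) (p : X) : X := (hh b p.1, p.2)

theorem hp_hp (b : Bool) (p : X) : hp (!b) (hp b p) = p := by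
  simp only [hp, hh_hh]

theorem continuous_hp (b : Bool) : Continuous (hp b) :=
  ((continuous_hh b).comp continuous_fst).prodMk continuous_snd

/-- the extra generator (`b = true`) and its inverse (`b = false`) -/
def aa (b : Bool) (p : X) : X := kap (!b) (hp b (kap b p))

theorem aa_aa (b : Bool) (p : X) : aa (!b) (aa b p) = p := by
  simp only [aa, Bool.not_not]
  rw [kap_kap, hp_hp, kap_kap]

theorem aa_aa' (b : Bool) (p : X) : aa b (aa (!b) p) = p := by
  have := aa_aa (!b) p
  rwa [Bool.not_not] at this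

theorem continuous_aa (b : Bool) : Continuous (aa b) :=
  (continuous_kap _).comp ((continuous_hp b).comp (continuous_kap b))

/-- The extra generator fixes a nonempty open set pointwise. -/
theorem aa_fix (b : Bool) (p : X) (h1 : (p.1 0).1 = 3) (h2 : (p.2 0).2 = false) :
    aa b p = p := by
  have hk : ∀ c, kap c p = p := by
    intro c
    rw [kap, if_neg, if_neg]
    · rintro ⟨h, -⟩; exact h h1
    · rintro ⟨h, -⟩
      rw [h] at h2
      simp at h2
  have hp' : hp b p = p := by
    simp only [hp, hh, h1, if_true]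
  rw [aa, hk, hp', hk]

/-- the key formula -/
theorem aa_step (b : Bool) (i : Fin 3) (y : B 3) (hy : y 0 ≠ (i, true)) (v : B 4)
    (hv : v 0 = (emb i, b)) (hv1 : v 1 ≠ (3, decide (v 2 ≠ (3, false)))) :
    aa b (v, y) = (act (emb i, b) v, y) := by
  have hk : kap b (v, y) = (v, y) := by
    rw [kap, if_neg, if_neg]
    · rintro ⟨-, -, h, -⟩; exact hv1 h
    · rintro ⟨h, -⟩
      change y 0 = (tau (v 0), true) at h
      rw [hv, tau_emb] at h
      exact hy h
  have hhv : hh b v = act (emb i, b) v := by
    rw [hh, hv, if_neg (emb_ne i), if_pos rfl]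
  have h0 : act (emb i, b) v 0 = (emb i, b) := by
    apply act_zero
    rw [hv]
    exact ne_inv _
  have hk2 : kap (!b) (act (emb i, b) v, y) = (act (emb i, b) v, y) := by
    rw [kap, if_neg, if_neg]
    · rintro ⟨-, h, -⟩
      change (act (emb i, b) v 0).2 = !b at h
      rw [h0] at h
      cases b <;> simp at h
    · rintro ⟨h, -⟩
      change y 0 = (tau (act (emb i, b) v 0), true) at h
      rw [h0, tau_emb] at h
      exact hy h
  rw [aa, hk, hp, hhv, hk2]

theorem aa_first (b : Bool) (i : Fin 3) (y : B 3) (hy : y 0 ≠ (i, true)) (x : B 4) :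
    aa b (x, enc (tau (x 0)) i y) =
      (act (emb i, b) (act (emb i, b) (xu x)), y) := by
  set q : X := (x, enc (tau (x 0)) i y) with hq
  have q0 : q.1 0 = x 0 := rfl
  have q1 : q.2 0 = (tau (x 0), true) := enc_zero _ _ _
  have q2 : q.2 1 = (i, true) := enc_one _ _ _
  have q3 : q.2 2 = (zz i, decide (y 0 ≠ (zz i, false))) := enc_two _ _ _
  have q4 : ∀ k, q.2 (k + 3) = y k := enc_add _ _ _
  have hs : strip (q.1 0) (q.2 0) (q.2 1) (q.2 2) (q.2 3) := by
    refine ⟨?_, ?_, ?_, ?_⟩
    · rw [q0, q1]
    · rw [q2]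
    · rw [q2, q3, q4 0]
    · rw [q2, q4 0]; exact hy
  have hk : kap b q = (act (emb i, b) (xu x), y) := by
    rw [kap, if_pos hs, q2]
    refine Prod.ext rfl ?_
    apply B.ext'
    intro k
    rw [dec_snd, q4]
  have h0 : act (emb i, b) (xu x) 0 = (emb i, b) := act_zero (dec_ok b i x)
  have hhv : hh b (act (emb i, b) (xu x)) = act (emb i, b) (act (emb i, b) (xu x)) := by
    rw [hh, h0, if_neg (emb_ne i), if_pos rfl]
  have h0' : act (emb i, b) (act (emb i, b) (xu x)) 0 = (emb i, b) := by
    apply act_zero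
    rw [h0]
    exact ne_inv _
  have hk2 : kap (!b) (act (emb i, b) (act (emb i, b) (xu x)), y) =
      (act (emb i, b) (act (emb i, b) (xu x)), y) := by
    rw [kap, if_neg, if_neg]
    · rintro ⟨-, h, -⟩
      change (act (emb i, b) (act (emb i, b) (xu x)) 0).2 = !b at h
      rw [h0'] at h
      cases b <;> simp at h
    · rintro ⟨h, -⟩
      change y 0 = (tau (act (emb i, b) (act (emb i, b) (xu x)) 0), true) at h
      rw [h0', tau_emb] at h
      exact hy h
  rw [aa, hk, hp, hhv, hk2]

/-- The key property of the extra generator: `a^{b(m+1)} (x, code) = (e ⋯, y)`. -/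
theorem aa_iter (b : Bool) (i : Fin 3) (y : B 3) (hy : y 0 ≠ (i, true)) (x : B 4) (m : ℕ) :
    ∃ v : B 4, (aa b)^[m + 1] (x, enc (tau (x 0)) i y) = (v, y) ∧ v 0 = (emb i, b) ∧
      v 1 = (emb i, b) := by
  induction m with
  | zero =>
    have h0 : act (emb i, b) (xu x) 0 = (emb i, b) := act_zero (dec_ok b i x)
    have h0' : act (emb i, b) (xu x) 0 ≠ inv (emb i, b) := by
      rw [h0]
      exact ne_inv _
    exact ⟨_, aa_first b i y hy x, act_zero h0', by rw [act_succ h0' 0, h0]⟩
  | succ m ih =>
    obtain ⟨v, h1, h2, h3⟩ := ih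
    have h0' : v 0 ≠ inv (emb i, b) := by
      rw [h2]
      exact ne_inv _
    refine ⟨act (emb i, b) v, ?_, act_zero h0', by rw [act_succ h0' 0, h2]⟩
    rw [Function.iterate_succ_apply', h1]
    refine aa_step b i y hy v h2 ?_
    rw [h3]
    intro h
    exact emb_ne i (congrArg Prod.fst h)

end Pool.Agent.X194.TF
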