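import Pool.Agent.X194.TF.Extra

/-!
# The action of the free group of rank five
-/

open Filter Topology

namespace Pool.Agent.X194.TF

/-- letters of rank four acting on the second factor -/
def act3 (l : Lt 4) (y : B 3) : B 3 := if h : l.1.val < 3 then act (⟨l.1.val, h⟩, l.2) y else y

theorem act3_act3 (l : Lt 4) (y : B 3) : act3 (inv l) (act3 l y) = y := by
  by_cases h : l.1.val < 3
  · have h' : (inv l).1.val < 3 := h
    simp only [act3, h, h', dite_true]
    exact act_inv_act (⟨l.1.val, h⟩, l.2) y
  · have h' : ¬ (inv l).1.val < 3 := h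
    simp only [act3, h, h', dite_false]

theorem act3_act3' (l : Lt 4) (y : B 3) : act3 l (act3 (inv l) y) = y := by
  have := act3_act3 (inv l) y
  rwa [inv_inv] at this

theorem continuous_act3 (l : Lt 4) : Continuous (act3 l) := by
  by_cases h : l.1.val < 3
  · have : act3 l = act (⟨l.1.val, h⟩, l.2) := by
      funext y; simp only [act3, h, dite_true]
    rw [this]
    exact continuous_act _
  · have : act3 l = id := by
      funext y; simp only [act3, h, dite_false, id]
    rw [this]
    exact continuous_id

/-- letters of rank four acting on the product -/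
def act2 (l : Lt 4) (p : X) : X := (act l p.1, act3 l p.2)

/-- letters of rank five acting on the product -/
def lact : Option (Fin 4) × Bool → X → X
  | (some i, b) => act2 (i, b)
  | (none, b) => aa b

theorem lact_lact (o : Option (Fin 4)) (b : Bool) (p : X) :
    lact (o, !b) (lact (o, b) p) = p := by
  rcases o with _ | i
  · exact aa_aa b p
  · change act2 (inv (i, b)) (act2 (i, b) p) = p
    refine Prod.ext ?_ ?_
    · exact act_inv_act _ _
    · exact act3_act3 _ _

theorem continuous_lact (l : Option (Fin 4) × Bool) : Continuous (lact l) := by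
  obtain ⟨o, b⟩ := l
  rcases o with _ | i
  · exact continuous_aa b
  · exact ((continuous_act _).comp continuous_fst).prodMk
      ((continuous_act3 _).comp continuous_snd)

/-- the generators as homeomorphisms -/
def gen (o : Option (Fin 4)) : X ≃ₜ X where
  toFun := lact (o, true)
  invFun := lact (o, false)
  left_inv p := lact_lact o true p
  right_inv p := lact_lact o false p
  continuous_toFun := continuous_lact _
  continuous_invFun := continuous_lact _

/-- the action -/
def phi : FreeGroup (Option (Fin 4)) →* (X ≃ₜ X) := FreeGroup.lift gen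

theorem phi_mk (L : List (Option (Fin 4) × Bool)) (p : X) :
    phi (FreeGroup.mk L) p = L.foldr lact p := by
  rw [phi, FreeGroup.lift_mk]
  induction L with
  | nil => rfl
  | cons l L ih =>
    rw [List.map_cons, List.prod_cons, List.foldr_cons, ← ih]
    obtain ⟨o, b⟩ := l
    cases b <;> rfl

/-- the invariant of the induction -/
def St : Option (Fin 4) × Bool → Set X → Prop
  | (some i, b), Y => ∃ y : B 3, ∀ x : B 4, x 0 ≠ inv (i, b) → (x, y) ∈ Y
  | (none, b), Y => ∀ m : ℕ, ∃ γ : Lt 4 → B 3, ∀ x : B 4, (aa b)^[m] (x, γ (x 0)) ∈ Y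

theorem exists_index (β : Lt 4) (t : Lt 3) (b : Bool) :
    ∃ i : Fin 3, (emb i, b) ≠ β ∧ t ≠ (i, true) := by
  revert β t b; decide

theorem St_step (l l' : Option (Fin 4) × Bool) (h : l.1 = l'.1 → l.2 = l'.2) (Y : Set X)
    (hY : St l Y) : St l' {p | lact l' p ∈ Y} := by
  obtain ⟨o, b⟩ := l
  obtain ⟨o', b'⟩ := l'
  rcases o with _ | i
  · rcases o' with _ | i'
    · obtain rfl : b = b' := h rfl
      intro m
      obtain ⟨γ, hγ⟩ := hY (m + 1)
      refine ⟨γ, fun x => ?_⟩
      have := hγ x
      rw [Function.iterate_succ_apply'] at this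
      exact this
    · obtain ⟨γ, hγ⟩ := hY 0
      refine ⟨act3 (inv (i', b')) (γ (i', b')), fun x hx => ?_⟩
      have h1 := hγ (act (i', b') x)
      rw [act_zero hx] at h1
      change (act (i', b') x, act3 (i', b') (act3 (inv (i', b')) (γ (i', b')))) ∈ Y
      rw [act3_act3']
      exact h1
  · obtain ⟨y, hy⟩ := hY
    rcases o' with _ | i'
    · intro m
      obtain ⟨i₀, h1, h2⟩ := exists_index (inv (i, b)) (y 0) b'
      refine ⟨fun t => enc (tau t) i₀ y, fun x => ?_⟩
      obtain ⟨v, hv, hv0, -⟩ := aa_iter b' i₀ y h2 x m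
      rw [Function.iterate_succ_apply'] at hv
      change aa b' ((aa b')^[m] (x, enc (tau (x 0)) i₀ y)) ∈ Y
      rw [hv]
      exact hy v (by rw [hv0]; exact h1)
    · refine ⟨act3 (inv (i', b')) y, fun x hx => ?_⟩
      change (act (i', b') x, act3 (i', b') (act3 (inv (i', b')) y)) ∈ Y
      rw [act3_act3']
      refine hy _ ?_
      rw [act_zero hx]
      intro h3
      have e1 : i' = i := congrArg Prod.fst h3
      have e2 : b' = !b := congrArg Prod.snd h3
      have := h (by rw [e1])
      rw [e2] at this
      change b = !b at this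
      cases b <;> simp at this

theorem St_list (M : List (Option (Fin 4) × Bool)) : ∀ (l : Option (Fin 4) × Bool) (Y : Set X),
    FreeGroup.IsReduced (l :: M) → St l Y →
      St ((l :: M).getLast (List.cons_ne_nil _ _)) {p | M.foldr lact p ∈ Y} := by
  induction M with
  | nil => intro l Y _ hY; exact hY
  | cons l' M ih =>
    intro l Y hr hY
    rw [FreeGroup.isReduced_cons_cons] at hr
    rw [List.getLast_cons_cons]
    exact ih l' _ hr.2 (St_step l l' hr.1 Y hY)

theorem both_none (L : List (Option (Fin 4) × Bool)) (hL : L ≠ []) (hr : FreeGroup.IsReduced L)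
    (h1 : (L.head hL).1 = none) (h2 : (L.getLast hL).1 = none) :
    ∃ p : X, L.foldr lact p ≠ p := by
  by_contra hcon
  push Not at hcon
  obtain ⟨l, M, rfl⟩ := List.exists_cons_of_ne_nil hL
  have hY : St (some 3, false) {p : X | p.1 0 ≠ (3, true)} :=
    ⟨const (0, true), fun x hx => hx⟩
  have hr' : FreeGroup.IsReduced ((some 3, false) :: l :: M) := by
    rw [FreeGroup.isReduced_cons_cons]
    refine ⟨fun h => ?_, hr⟩
    rw [List.head_cons] at h1
    rw [h1] at h
    exact absurd h (by simp)
  have key := St_list (l :: M) (some 3, false) _ hr' hY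
  rw [List.getLast_cons_cons] at key
  obtain ⟨b, hl⟩ : ∃ b, (l :: M).getLast hL = (none, b) := ⟨_, Prod.ext h2 rfl⟩
  rw [hl] at key
  obtain ⟨γ, hγ⟩ := key 0
  have := hγ (const (3, true))
  have h3 : (l :: M).foldr lact ((const (3, true) : B 4), γ (const (3, true) 0)) ∈
    {p : X | p.1 0 ≠ (3, true)} := this
  rw [hcon] at h3
  exact h3 rfl

/-- The action is faithful. -/
theorem faithful (w : FreeGroup (Option (Fin 4))) (hw : ∀ p : X, phi w p = p) : w = 1 := by
  by_contra hne
  set L := w.toWord with hLdef
  have hL : L ≠ [] := by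
    intro h
    exact hne (FreeGroup.toWord_eq_nil_iff.1 h)
  have hr : FreeGroup.IsReduced L := FreeGroup.isReduced_toWord
  have hact : ∀ p : X, L.foldr lact p = p := by
    intro p
    rw [← phi_mk, hLdef, FreeGroup.mk_toWord]
    exact hw p
  -- the conjugate
  have conj : ∀ b : Bool, ((L.head hL).1 = none → b = (L.head hL).2) →
      ((L.getLast hL).1 = none → (L.getLast hL).2 = !b) → False := by
    intro b hb1 hb2
    have hL' : (none, b) :: (L ++ [(none, !b)]) ≠ [] := List.cons_ne_nil _ _
    have hr' : FreeGroup.IsReduced ((none, b) :: (L ++ [(none, !b)])) := by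
      unfold FreeGroup.IsReduced at hr ⊢
      rw [List.isChain_cons]
      refine ⟨?_, ?_⟩
      · intro y hy
        rw [List.head?_append_of_ne_nil _ hL, List.head?_eq_some_head hL] at hy
        obtain rfl : L.head hL = y := by simpa using hy
        intro h
        exact hb1 h.symm
      · rw [List.isChain_append]
        refine ⟨hr, List.isChain_singleton _, ?_⟩
        intro x hx y hy
        rw [List.getLast?_eq_some_getLast hL] at hx
        obtain rfl : L.getLast hL = x := by simpa using hx
        obtain rfl : (none, !b) = y := by simpa using hy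
        exact hb2
    obtain ⟨p, hp⟩ := both_none _ hL' hr' rfl (by simp)
    apply hp
    rw [List.foldr_cons, List.foldr_append, hact]
    have := lact_lact none (!b) p
    rw [Bool.not_not] at this
    exact this
  by_cases h1 : (L.head hL).1 = none
  · by_cases h2 : (L.getLast hL).1 = none
    · obtain ⟨p, hp⟩ := both_none L hL hr h1 h2
      exact hp (hact p)
    · exact conj (L.head hL).2 (fun _ => rfl) (fun h => absurd h h2)
  · by_cases h2 : (L.getLast hL).1 = none
    · exact conj (!(L.getLast hL).2) (fun h => absurd h h1) (fun _ => by simp)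
    · exact conj true (fun h => absurd h h1) (fun h => absurd h h2)

theorem tendsto_of_agree {n : ℕ} {u : ℕ → B n} {x : B n}
    (h : ∀ k, ∀ᶠ N in atTop, u N k = x k) : Tendsto u atTop (𝓝 x) := by
  refine tendsto_subtype_rng.2 (tendsto_pi_nhds.2 fun k => ?_)
  exact tendsto_nhds_of_eventually_eq (h k)

/-- insertion in the second factor along letters of rank four -/
def ins3 : ℕ → (ℕ → Lt 4) → B 3 → B 3
  | 0, _, z => z
  | N + 1, w, z => act3 (w 0) (ins3 N (fun k => w (k + 1)) z)

theorem exists_ins (N : ℕ) : ∀ w : ℕ → Lt 4, ∃ g : FreeGroup (Option (Fin 4)), ∀ p : X,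
    phi g p = (ins N w p.1, ins3 N w p.2) := by
  induction N with
  | zero => intro w; exact ⟨1, fun p => by simp [ins, ins3]⟩
  | succ N ih =>
    intro w
    obtain ⟨g, hg⟩ := ih (fun k => w (k + 1))
    refine ⟨FreeGroup.mk [(some (w 0).1, (w 0).2)] * g, fun p => ?_⟩
    rw [map_mul]
    change phi (FreeGroup.mk [(some (w 0).1, (w 0).2)]) (phi g p) = _
    rw [hg, phi_mk]
    rfl

theorem ins3_emb (N : ℕ) : ∀ (w : ℕ → Lt 3) (y : B 3),
    ins3 N (fun k => (emb (w k).1, (w k).2)) y = ins N w y := by
  induction N with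
  | zero => intro w y; rfl
  | succ N ih =>
    intro w y
    have h : ∀ (l : Lt 3) (z : B 3), act3 (emb l.1, l.2) z = act l z := by
      intro l z
      have : (emb l.1).val < 3 := l.1.isLt
      simp only [act3, this, dite_true]
      rfl
    change act3 (emb (w 0).1, (w 0).2) (ins3 N (fun k => (emb (w (k + 1)).1, (w (k + 1)).2)) y)
      = act (w 0) (ins N (fun k => w (k + 1)) y)
    rw [h, ← ih (fun k => w (k + 1)) y]

theorem exists_sep3 (β t : Lt 3) : ∃ c : Lt 3, c ≠ inv β ∧ t ≠ inv c := by
  revert β t; decide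

theorem exists_sep4 (β : Lt 4) : ∃ c : Lt 4, c ≠ inv β ∧ c.1 ≠ 3 := by
  revert β; decide

theorem exists_delta (t : Lt 4) : ∃ δ : Bool, t ≠ inv (3, δ) := by
  revert t; decide

/-- the word which follows `x` up to time `N` and is constant afterwards -/
theorem glue_red {n : ℕ} (x : B n) (N : ℕ) (c : Lt n) (hc : c ≠ inv (x (N - 1))) (k : ℕ) :
    (if k + 1 < N then x (k + 1) else c) ≠ inv (if k < N then x k else c) := by
  by_cases h1 : k + 1 < N
  · rw [if_pos h1, if_pos (by omega)]
    exact x.2 k
  · by_cases h2 : k < N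
    · rw [if_neg h1, if_pos h2]
      have : k = N - 1 := by omega
      rw [this]
      exact hc
    · rw [if_neg h1, if_neg h2]
      exact ne_inv c

theorem ins_glue {n : ℕ} (x : B n) (N : ℕ) (c : Lt n) (hc : c ≠ inv (x (N - 1))) (z : B n)
    (hz : z 0 ≠ inv c) (k : ℕ) (hk : k < N) :
    ins (N + 1) (fun k => if k < N then x k else c) z k = x k := by
  have := ins_apply N (fun k => if k < N then x k else c) z (glue_red x N c hc)
    (by simpa using hz) k hk.le
  rw [this, if_pos hk]

/-- approximate transitivity -/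
theorem approx (p q : X) (N : ℕ) : ∃ g : FreeGroup (Option (Fin 4)),
    (∀ k, k < N → (phi g p).1 k = q.1 k) ∧ (∀ k, k < N → (phi g p).2 k = q.2 k) := by
  -- move the second coordinate
  obtain ⟨c, hc1, hc2⟩ := exists_sep3 (q.2 (N - 1)) (p.2 0)
  obtain ⟨g, hg⟩ := exists_ins (N + 1)
    (fun k => (emb ((fun k => if k < N then q.2 k else c) k).1,
      ((fun k => if k < N then q.2 k else c) k).2))
  set p₁ := phi g p with hp1
  have h2 : ∀ k, k < N → p₁.2 k = q.2 k := by
    intro k hk
    rw [hp1, hg, ins3_emb]
    exact ins_glue q.2 N c hc1 p.2 hc2 k hk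
  -- move the first coordinate
  obtain ⟨c', hc'1, hc'2⟩ := exists_sep4 (q.1 (N - 1))
  obtain ⟨h, hh'⟩ := exists_ins (N + 1) (fun k => if k < N then q.1 k else c')
  set p₂ := (phi h).symm p₁ with hp2
  have e2 : phi h p₂ = p₁ := by rw [hp2]; simp
  obtain ⟨δ, hδ⟩ := exists_delta (p₂.1 0)
  have e3 : phi (FreeGroup.mk [(some 3, δ)]) p₂ = (act (3, δ) p₂.1, p₂.2) := by
    rw [phi_mk]; rfl
  have e4 : phi (h * FreeGroup.mk [(some 3, δ)] * h⁻¹ * g) p =
      (ins (N + 1) (fun k => if k < N then q.1 k else c') (act (3, δ) p₂.1), p₁.2) := by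
    rw [map_mul, map_mul, map_mul, map_inv]
    change phi h (phi (FreeGroup.mk [(some 3, δ)]) ((phi h).symm (phi g p))) = _
    rw [← hp1, ← hp2, e3, hh']
    refine Prod.ext rfl ?_
    have := congrArg Prod.snd (hh' p₂)
    rw [e2] at this
    exact this.symm
  refine ⟨h * FreeGroup.mk [(some 3, δ)] * h⁻¹ * g, ?_, ?_⟩
  · intro k hk
    rw [e4]
    refine ins_glue q.1 N c' hc'1 _ ?_ k hk
    rw [act_zero hδ]
    intro h5
    exact hc'2 (congrArg Prod.fst h5).symm
  · intro k hk
    rw [e4]
    exact h2 k hk

/-- The action is minimal. -/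
theorem minimal (p : X) : Dense (Set.range fun g : FreeGroup (Option (Fin 4)) => phi g p) := by
  intro q
  choose g hg1 hg2 using approx p q
  refine mem_closure_of_tendsto (f := fun N => phi (g N) p) (b := atTop) ?_
    (Eventually.of_forall fun N => ⟨g N, rfl⟩)
  have h1 : Tendsto (fun N => (phi (g N) p).1) atTop (𝓝 q.1) :=
    tendsto_of_agree fun k => (eventually_gt_atTop k).mono fun N hN => hg1 N k hN
  have h2 : Tendsto (fun N => (phi (g N) p).2) atTop (𝓝 q.2) :=
    tendsto_of_agree fun k => (eventually_gt_atTop k).mono fun N hN => hg2 N k hN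
  exact h1.prodMk_nhds h2

/-- A contracting sequence. -/
theorem contract : ∃ (g : ℕ → FreeGroup (Option (Fin 4))) (p₀ : X), ∀ p : X,
    Tendsto (fun j => phi (g j) p) atTop (𝓝 p₀) := by
  let s : FreeGroup (Option (Fin 4)) := FreeGroup.mk [(some 0, true)]
  let t : FreeGroup (Option (Fin 4)) := FreeGroup.mk [(some 1, false)]
  refine ⟨fun j => s ^ j * t ^ j, (const (0, true), const (0, true)), fun p => ?_⟩
  have hs : ∀ p : X, phi s p = (act (0, true) p.1, act (0, true) p.2) := fun p => by
    rw [phi_mk]; rfl
  have ht : ∀ p : X, phi t p = (act (inv (1, true)) p.1, act (inv (1, true)) p.2) := fun p => by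
    rw [phi_mk]; rfl
  have hpow : ∀ (g : FreeGroup (Option (Fin 4))) (a : Lt 4) (b : Lt 3),
      (∀ p : X, phi g p = (act a p.1, act b p.2)) → ∀ (j : ℕ) (p : X),
      phi (g ^ j) p = ((act a)^[j] p.1, (act b)^[j] p.2) := by
    intro g a b hg j
    induction j with
    | zero => intro p; simp
    | succ j ih =>
      intro p
      rw [pow_succ', map_mul]
      change phi g (phi (g ^ j) p) = _
      rw [ih, hg, Function.iterate_succ_apply', Function.iterate_succ_apply']
  have e : ∀ j, phi (s ^ j * t ^ j) p = ((act (0, true))^[j] ((act (inv (1, true)))^[j] p.1),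
      (act (0, true))^[j] ((act (inv (1, true)))^[j] p.2)) := by
    intro j
    rw [map_mul]
    change phi (s ^ j) (phi (t ^ j) p) = _
    rw [hpow s _ _ hs, hpow t _ _ ht]
  have gen1 : ∀ {n : ℕ} (s t : Lt n), inv s ≠ t → inv s ≠ inv t → ∀ x : B n,
      Tendsto (fun j => (act s)^[j] ((act (inv t))^[j] x)) atTop (𝓝 (const s)) := by
    intro n s t h1 h2 x
    refine tendsto_of_agree fun k => ?_
    filter_upwards [eventually_ne h1 h2 x, eventually_gt_atTop k] with j hj hk
    exact (iter_act_zero_ne hj j).2.1 k hk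
  have h1 := gen1 ((0, true) : Lt 4) (1, true) (by decide) (by decide) p.1
  have h2 := gen1 ((0, true) : Lt 3) (1, true) (by decide) (by decide) p.2
  exact (h1.prodMk_nhds h2).congr fun j => (e j).symm

/-- The extra generator fixes an open set pointwise. -/
theorem phi_none (p : X) (h1 : (p.1 0).1 = 3) (h2 : (p.2 0).2 = false) :
    phi (FreeGroup.of none) p = p := by
  change phi (FreeGroup.mk [(none, true)]) p = p
  rw [phi_mk]
  exact aa_fix true p h1 h2

end Pool.Agent.X194.TF
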