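import Mathlib

/-!
# Infinite reduced words and the boundary action of a free group
-/

namespace Pool.Agent.X194.TF

/-- The letters of the free group of rank `n`: `(i, true)` is the `i`-th generator and
`(i, false)` its inverse. -/
abbrev Lt (n : ℕ) := Fin n × Bool

/-- The inverse letter. -/
def inv {n : ℕ} (l : Lt n) : Lt n := (l.1, !l.2)

@[simp] theorem inv_inv {n : ℕ} (l : Lt n) : inv (inv l) = l := by simp [inv]

theorem inv_ne {n : ℕ} (l : Lt n) : inv l ≠ l := by
  intro h
  have := congrArg Prod.snd h
  simp [inv] at this

theorem ne_inv {n : ℕ} (l : Lt n) : l ≠ inv l := fun h => inv_ne l h.symm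

theorem inv_eq_iff {n : ℕ} (a b : Lt n) : inv a = b ↔ a = inv b := by
  constructor
  · rintro rfl; simp
  · rintro rfl; simp

/-- Infinite reduced words. -/
def B (n : ℕ) : Type := {x : ℕ → Lt n // ∀ k, x (k + 1) ≠ inv (x k)}

instance (n : ℕ) : TopologicalSpace (B n) :=
  inferInstanceAs (TopologicalSpace {x : ℕ → Lt n // ∀ k, x (k + 1) ≠ inv (x k)})

instance (n : ℕ) : T2Space (B n) :=
  inferInstanceAs (T2Space {x : ℕ → Lt n // ∀ k, x (k + 1) ≠ inv (x k)})

instance (n : ℕ) : CompactSpace (B n) := by
  have h : IsClosed {x : ℕ → Lt n | ∀ k, x (k + 1) ≠ inv (x k)} := by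
    have : {x : ℕ → Lt n | ∀ k, x (k + 1) ≠ inv (x k)} =
        ⋂ k, (fun x : ℕ → Lt n => (x k, x (k + 1))) ⁻¹' {p | p.2 ≠ inv p.1} := by
      ext x; simp
    rw [this]
    exact isClosed_iInter fun k => (isClosed_discrete _).preimage (by fun_prop)
  exact isCompact_iff_compactSpace.1 h.isCompact

variable {n : ℕ}

instance : CoeFun (B n) (fun _ => ℕ → Lt n) := ⟨fun x => x.1⟩

theorem B.ext' {x y : B n} (h : ∀ k, x k = y k) : x = y := Subtype.ext (funext h)

theorem red (x : B n) (k : ℕ) : x (k + 1) ≠ inv (x k) := x.2 k

theorem continuous_letter (k : ℕ) : Continuous (fun x : B n => x k) :=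
  (continuous_apply k).comp continuous_subtype_val

/-- a constant word -/
def const (l : Lt n) : B n := ⟨fun _ => l, fun _ => ne_inv l⟩

@[simp] theorem const_apply (l : Lt n) (k : ℕ) : const l k = l := rfl

/-- deletion of the first letter -/
def tail (x : B n) : B n := ⟨fun k => x (k + 1), fun k => x.2 (k + 1)⟩

@[simp] theorem tail_apply (x : B n) (k : ℕ) : tail x k = x (k + 1) := rfl

/-- putting a letter in front -/
def rawCons (l : Lt n) (x : ℕ → Lt n) : ℕ → Lt n
  | 0 => l
  | k + 1 => x k

/-- putting a letter in front -/
def cons (l : Lt n) (x : B n) (h : x 0 ≠ inv l) : B n :=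
  ⟨rawCons l x, by
    rintro (_ | k)
    · exact h
    · exact x.2 k⟩

/-- Multiplication by a letter on the left, with free reduction. -/
def act (l : Lt n) (x : B n) : B n := if h : x 0 = inv l then tail x else cons l x h

theorem act_of_eq {l : Lt n} {x : B n} (h : x 0 = inv l) : act l x = tail x := by
  simp [act, h]

theorem act_zero {l : Lt n} {x : B n} (h : x 0 ≠ inv l) : act l x 0 = l := by
  simp only [act, h, dite_false]
  rfl

theorem act_succ {l : Lt n} {x : B n} (h : x 0 ≠ inv l) (k : ℕ) : act l x (k + 1) = x k := by
  simp only [act, h, dite_false]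
  rfl

theorem act_inv_act (l : Lt n) (x : B n) : act (inv l) (act l x) = x := by
  by_cases h : x 0 = inv l
  · rw [act_of_eq h]
    have h1 : tail x 0 ≠ inv (inv l) := by
      rw [tail_apply, ← h]
      exact x.2 0
    apply B.ext'
    rintro (_ | k)
    · rw [act_zero h1, h]
    · rw [act_succ h1, tail_apply]
  · have h1 : act l x 0 = inv (inv l) := by rw [act_zero h, inv_inv]
    rw [act_of_eq h1]
    apply B.ext'
    intro k
    rw [tail_apply, act_succ h]

theorem act_act_inv (l : Lt n) (x : B n) : act l (act (inv l) x) = x := by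
  have := act_inv_act (inv l) x
  rwa [inv_inv] at this

/-- A function given by finitely many continuous branches selected by a continuous code. -/
theorem cont_code {X Y D : Type*} [TopologicalSpace X] [TopologicalSpace Y]
    [TopologicalSpace D] [DiscreteTopology D] {c : X → D} (hc : Continuous c)
    {G : D → X → Y} (hG : ∀ d, Continuous (G d)) : Continuous (fun x => G (c x) x) := by
  have h : Continuous (fun p : D × X => G p.1 p.2) :=
    continuous_prod_of_discrete_left.2 hG
  exact h.comp (hc.prodMk continuous_id)

theorem continuous_tail : Continuous (tail : B n → B n) := by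
  refine Continuous.subtype_mk (continuous_pi fun k => ?_) _
  exact continuous_letter (k + 1)

theorem continuous_act (l : Lt n) : Continuous (act l : B n → B n) := by
  have key : Continuous (fun x : B n => ((act l x : B n).1 : ℕ → Lt n)) := by
    refine continuous_pi fun k => ?_
    rcases k with _ | k
    · have h : (fun x : B n => (act l x : B n).1 0) =
          fun x : B n => if x 0 = inv l then x 1 else l := by
        funext x
        by_cases hx : x 0 = inv l
        · rw [if_pos hx, act_of_eq hx]; rfl
        · rw [if_neg hx]; exact act_zero hx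
      rw [h]
      exact (continuous_of_discreteTopology
        (f := fun p : Lt n × Lt n => if p.1 = inv l then p.2 else l)).comp
        ((continuous_letter 0).prodMk (continuous_letter 1))
    · have h : (fun x : B n => (act l x : B n).1 (k + 1)) =
          fun x : B n => if x 0 = inv l then x (k + 2) else x k := by
        funext x
        by_cases hx : x 0 = inv l
        · rw [if_pos hx, act_of_eq hx]; rfl
        · rw [if_neg hx]; exact act_succ hx k
      rw [h]
      exact (continuous_of_discreteTopology
        (f := fun p : Lt n × Lt n × Lt n => if p.1 = inv l then p.2.1 else p.2.2)).comp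
        ((continuous_letter 0).prodMk ((continuous_letter (k + 2)).prodMk
          (continuous_letter k)))
  exact continuous_induced_rng.2 key

/-- Multiplication by a letter is a homeomorphism. -/
def actH (l : Lt n) : B n ≃ₜ B n where
  toFun := act l
  invFun := act (inv l)
  left_inv := act_inv_act l
  right_inv := act_act_inv l
  continuous_toFun := continuous_act l
  continuous_invFun := continuous_act (inv l)

/-- Reduced multiplication on the left by the first `N` letters of a word. -/
def ins : ℕ → (ℕ → Lt n) → B n → B n
  | 0, _, z => z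
  | N + 1, w, z => act (w 0) (ins N (fun k => w (k + 1)) z)

theorem ins_apply (N : ℕ) : ∀ (w : ℕ → Lt n) (z : B n), (∀ k, w (k + 1) ≠ inv (w k)) →
    z 0 ≠ inv (w N) → ∀ k, k ≤ N → ins (N + 1) w z k = w k := by
  induction N with
  | zero =>
    intro w z _ hz k hk
    obtain rfl : k = 0 := by omega
    exact act_zero hz
  | succ N ih =>
    intro w z hw hz k hk
    have h := ih (fun k => w (k + 1)) z (fun k => hw (k + 1)) hz
    have h0 : ins (N + 1) (fun k => w (k + 1)) z 0 ≠ inv (w 0) := by
      rw [h 0 (Nat.zero_le _)]
      exact hw 0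
    change act (w 0) (ins (N + 1) (fun k => w (k + 1)) z) k = w k
    rcases k with _ | k
    · exact act_zero h0
    · rw [act_succ h0]
      exact h k (by omega)

/-- powers of a letter -/
theorem iter_act_zero_ne {s : Lt n} {z : B n} (hz : z 0 ≠ inv s) (j : ℕ) :
    ((act s)^[j] z) 0 ≠ inv s ∧ (∀ k, k < j → ((act s)^[j] z) k = s) ∧
      ∀ k, ((act s)^[j] z) (k + j) = z k := by
  induction j with
  | zero => exact ⟨hz, fun k hk => absurd hk (by omega), fun k => rfl⟩
  | succ j ih =>
    rw [Function.iterate_succ_apply']
    refine ⟨?_, ?_, ?_⟩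
    · rw [act_zero ih.1]; exact ne_inv s
    · rintro (_ | k) hk
      · exact act_zero ih.1
      · rw [act_succ ih.1]; exact ih.2.1 k (by omega)
    · intro k
      rw [← add_assoc, act_succ ih.1]
      exact ih.2.2 k

/-- For each word `x` there are only finitely many `j` for which `t^{-j} x` starts with
`s⁻¹`. -/
theorem eventually_ne {s t : Lt n} (h1 : inv s ≠ t) (h2 : inv s ≠ inv t) (x : B n) :
    ∀ᶠ j in Filter.atTop, ((act (inv t))^[j] x) 0 ≠ inv s := by
  by_cases h : ∃ j, ((act (inv t))^[j] x) 0 = inv s
  · obtain ⟨j, hj⟩ := h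
    filter_upwards [Filter.eventually_ge_atTop (j + 1)] with k hk
    obtain ⟨m, rfl⟩ := Nat.exists_eq_add_of_le hk
    have e : (act (inv t))^[j + 1 + m] x =
        (act (inv t))^[m + 1] ((act (inv t))^[j] x) := by
      rw [← Function.iterate_add_apply]
      congr 1
      omega
    rw [e]
    have h0 : ((act (inv t))^[j] x) 0 ≠ inv (inv t) := by
      rw [hj, inv_inv]; exact h1
    have := (iter_act_zero_ne h0 (m + 1)).2.1 0 (by omega)
    rw [this]
    exact fun h => h2 h.symm
  · push Not at h
    exact Filter.Eventually.of_forall h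

end Pool.Agent.X194.TF
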